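import Pool.Agent.Helper13.Sof.Goals

/-!
# `GG p` is residually finite (packet RF, MP_1f9cc6_al)
-/

namespace Pool.Agent.Helper23.Sof

open Pool.Agent.Helper13.Sof Polynomial

theorem rfGoal : RFGoal := by
  intro p hp g hg
  classical
  -- a non-zero entry
  obtain ⟨i, j, hij⟩ : ∃ i j, g.val i j - (1 : Matrix (Fin 4) (Fin 4) (Rng p)) i j ≠ 0 := by
    by_contra h
    push Not at h
    apply hg
    apply Units.ext
    ext1 i j
    exact sub_eq_zero.1 (h i j)
  set r : Rng p := g.val i j - (1 : Matrix (Fin 4) (Fin 4) (Rng p)) i j with hr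
  have hrc : r.coeff ≠ 0 := by
    intro h
    exact hij (MonoidAlgebra.coeff_eq_zero.1 h)
  obtain ⟨l0, hl0⟩ : ∃ l0, r.coeff l0 ≠ 0 := by
    by_contra h
    push Not at h
    apply hrc
    ext l
    simpa using h l
  set M : ℕ := 1 + ∑ σ ∈ r.coeff.support, ∑ a : Fin 3, ∑ b : Fin 3, (σ.1 a b).natDegree with hM
  have hdeg : ∀ σ ∈ r.coeff.support, ∀ a b, (σ.1 a b).natDegree < M := by
    intro σ hσ a b
    have h1 : (σ.1 a b).natDegree ≤ ∑ b : Fin 3, (σ.1 a b).natDegree :=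
      Finset.single_le_sum (f := fun b => (σ.1 a b).natDegree) (fun _ _ => Nat.zero_le _)
        (Finset.mem_univ b)
    have h2 : ∑ b : Fin 3, (σ.1 a b).natDegree ≤ ∑ a : Fin 3, ∑ b : Fin 3, (σ.1 a b).natDegree :=
      Finset.single_le_sum (f := fun a => ∑ b : Fin 3, (σ.1 a b).natDegree)
        (fun _ _ => Nat.zero_le _) (Finset.mem_univ a)
    have h3 : ∑ a : Fin 3, ∑ b : Fin 3, (σ.1 a b).natDegree ≤
        ∑ σ ∈ r.coeff.support, ∑ a : Fin 3, ∑ b : Fin 3, (σ.1 a b).natDegree :=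
      Finset.single_le_sum (f := fun σ : Lam p => ∑ a : Fin 3, ∑ b : Fin 3, (σ.1 a b).natDegree)
        (fun _ _ => Nat.zero_le _) hσ
    omega
  let R := AdjoinRoot (X ^ M : (ZMod p)[X])
  have : Module.Finite (ZMod p) R := (monic_X_pow M).finite_adjoinRoot
  have hRfin : Finite R := Module.finite_of_finite (ZMod p)
  let φ : Lam p →* Matrix.SpecialLinearGroup (Fin 3) R :=
    Matrix.SpecialLinearGroup.map (AdjoinRoot.mk (X ^ M : (ZMod p)[X]))
  have hinj : Set.InjOn φ (r.coeff.support : Set (Lam p)) := by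
    intro σ hσ τ hτ h
    apply Matrix.SpecialLinearGroup.ext
    intro a b
    have h1 : AdjoinRoot.mk (X ^ M : (ZMod p)[X]) (σ.1 a b) =
        AdjoinRoot.mk (X ^ M : (ZMod p)[X]) (τ.1 a b) := by
      have := congrArg (fun s : Matrix.SpecialLinearGroup (Fin 3) R => s.1 a b) h
      exact this
    rw [AdjoinRoot.mk_eq_mk] at h1
    have h2 : (σ.1 a b - τ.1 a b).natDegree < (X ^ M : (ZMod p)[X]).natDegree := by
      rw [natDegree_X_pow]
      refine (natDegree_sub_le _ _).trans_lt (max_lt ?_ ?_)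
      · exact hdeg σ hσ a b
      · exact hdeg τ hτ a b
    exact sub_eq_zero.1 (eq_zero_of_dvd_of_natDegree_lt h1 h2)
  have hfin : Finite (MonoidAlgebra (ZMod p) (Matrix.SpecialLinearGroup (Fin 3) R)) := by
    have h1 : Finite (Matrix.SpecialLinearGroup (Fin 3) R →₀ ZMod p) :=
      Finite.of_injective (fun f : Matrix.SpecialLinearGroup (Fin 3) R →₀ ZMod p => (f : _ → _))
        DFunLike.coe_injective
    exact Finite.of_equiv _ (MonoidAlgebra.coeffEquiv
      (R := ZMod p) (M := Matrix.SpecialLinearGroup (Fin 3) R)).symm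
  let ψ : Rng p →+* MonoidAlgebra (ZMod p) (Matrix.SpecialLinearGroup (Fin 3) R) :=
    MonoidAlgebra.mapDomainRingHom (ZMod p) φ
  refine ⟨(Matrix (Fin 4) (Fin 4)
    (MonoidAlgebra (ZMod p) (Matrix.SpecialLinearGroup (Fin 3) R)))ˣ, inferInstance,
    inferInstance, Units.map (ψ.mapMatrix : Matrix (Fin 4) (Fin 4) (Rng p) →+* _).toMonoidHom, ?_⟩
  intro h
  have h1 : (ψ.mapMatrix g.val) i j = (ψ.mapMatrix (1 : Matrix (Fin 4) (Fin 4) (Rng p))) i j := by
    have h2 := congrArg (fun u : (Matrix (Fin 4) (Fin 4)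
      (MonoidAlgebra (ZMod p) (Matrix.SpecialLinearGroup (Fin 3) R)))ˣ => u.val i j) h
    rw [map_one]
    exact h2
  have h2 : ψ r = 0 := by
    rw [hr, map_sub]
    exact sub_eq_zero.2 h1
  have h3 : (ψ r).coeff (φ l0) = r.coeff l0 := by
    show (Finsupp.mapDomain φ r.coeff) (φ l0) = r.coeff l0
    exact Finsupp.mapDomain_apply' (r.coeff.support : Set (Lam p)) r.coeff (fun _ h => h) hinj
      (Finsupp.mem_support_iff.2 hl0)
  rw [h2] at h3
  exact hl0 h3.symm

end Pool.Agent.Helper23.Sof
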